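import Mathlib

namespace Pool.Agent.Results.MP_8ac8bf_al.FormNotUnique

/-- `A` is diagonalizable and its eigenspaces can be ordered `V 0, …, V d` so that
`B (V i) ⊆ V (i - 1) + V i + V (i + 1)`. -/
def ActsTridiagonally {K V : Type} [Field K] [AddCommGroup V] [Module K V]
    (A B : Module.End K V) : Prop :=
  (⨆ μ, A.eigenspace μ = ⊤) ∧
    ∃ (d : ℕ) (θ : Fin (d + 1) → K), Function.Injective θ ∧
      (∀ μ, A.HasEigenvalue μ ↔ μ ∈ Set.range θ) ∧
      ∀ i, (A.eigenspace (θ i)).map B ≤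
        ⨆ j : Fin (d + 1), ⨆ (_ : |(i : ℤ) - (j : ℤ)| ≤ 1), A.eigenspace (θ j)

/-- Tridiagonal pairs. -/
def IsTDPair {K V : Type} [Field K] [AddCommGroup V] [Module K V] (A B : Module.End K V) : Prop :=
  ActsTridiagonally A B ∧ ActsTridiagonally B A ∧
    ∀ W : Submodule K V, W.map A ≤ W → W.map B ≤ W → W = ⊥ ∨ W = ⊤

/-- Symmetric `(A, B)`-invariant bilinear forms. -/
def IsSymmInvariant {K V : Type} [Field K] [AddCommGroup V] [Module K V] (A B : Module.End K V)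
    (f : LinearMap.BilinForm K V) : Prop :=
  (∀ u v, f u v = f v u) ∧ (∀ u v, f (A u) v = f u (A v)) ∧ ∀ u v, f (B u) v = f u (B v)

lemma acts {V : Type} [AddCommGroup V] [Module ℝ V] (A B : Module.End ℝ V)
    (hA : ∀ v, A (A v) = A v) (h0 : ∃ v, v ≠ 0 ∧ A v = 0) (h1 : ∃ v, v ≠ 0 ∧ A v = v) :
    ActsTridiagonally A B := by
  have htop : A.eigenspace 0 ⊔ A.eigenspace 1 = ⊤ := by
    rw [eq_top_iff]
    intro v _
    refine Submodule.mem_sup.2 ⟨v - A v, ?_, A v, ?_, by simp⟩ <;>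
      simp [Module.End.mem_eigenspace_iff, hA]
  refine ⟨?_, 1, ![0, 1], ?_, fun μ => ⟨fun h => ?_, ?_⟩, fun i => ?_⟩
  · rw [eq_top_iff, ← htop]
    exact sup_le (le_iSup _ _) (le_iSup _ _)
  · intro i j; fin_cases i <;> fin_cases j <;> simp
  · obtain ⟨v, hv⟩ := h.exists_hasEigenvector
    have h2 := hv.apply_eq_smul
    have h3 := hA v
    rw [h2, map_smul, h2, smul_smul, ← sub_eq_zero, ← sub_smul, smul_eq_zero] at h3
    have h4 : μ * (μ - 1) = 0 := by linear_combination h3.resolve_right hv.2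
    rcases mul_eq_zero.1 h4 with h | h
    · exact ⟨0, by simp [h]⟩
    · exact ⟨1, by simp [sub_eq_zero.1 h]⟩
  · rintro ⟨i, rfl⟩
    fin_cases i
    · obtain ⟨v, hv, h⟩ := h0
      exact Module.End.hasEigenvalue_of_hasEigenvector
        ⟨Module.End.mem_eigenspace_iff.2 (by simpa using h), hv⟩
    · obtain ⟨v, hv, h⟩ := h1
      exact Module.End.hasEigenvalue_of_hasEigenvector
        ⟨Module.End.mem_eigenspace_iff.2 (by simpa using h), hv⟩
  · refine le_top.trans (htop.ge.trans (sup_le ?_ ?_))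
    · exact le_iSup₂_of_le (0 : Fin 2) (by fin_cases i <;> simp) le_rfl
    · exact le_iSup₂_of_le (1 : Fin 2) (by fin_cases i <;> simp) le_rfl

theorem result : ∃ (A B : Module.End ℝ (Fin 4 → ℝ)), IsTDPair A B ∧
    ∃ f g : LinearMap.BilinForm ℝ (Fin 4 → ℝ), f ≠ 0 ∧ g ≠ 0 ∧ IsSymmInvariant A B f ∧
      IsSymmInvariant A B g ∧ ∀ c : ℝ, g ≠ c • f := by
  let A : Module.End ℝ (Fin 4 → ℝ) :=
    Matrix.toLin' !![1, 0, 0, 0; 0, 1, 0, 0; 0, 0, 0, 0; 0, 0, 0, 0]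
  let B : Module.End ℝ (Fin 4 → ℝ) :=
    Matrix.toLin' !![0, -1, 1, 0; 1, 0, 0, 1; 1, -1, 1, 1; 1, 1, -1, 1]
  have hA : ∀ v, A v = ![v 0, v 1, 0, 0] := fun v => by
    ext i; fin_cases i <;> simp [A, Matrix.mulVec, dotProduct, Fin.sum_univ_four]
  have hB : ∀ v, B v = ![v 2 - v 1, v 0 + v 3, v 0 - v 1 + v 2 + v 3, v 0 + v 1 - v 2 + v 3] :=
    fun v => by
      ext i; fin_cases i <;> simp [B, Matrix.mulVec, dotProduct, Fin.sum_univ_four] <;> ring
  let f : LinearMap.BilinForm ℝ (Fin 4 → ℝ) :=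
    Matrix.toBilin' !![1, -1, 0, 0; -1, -1, 0, 0; 0, 0, 1, 0; 0, 0, 0, -1]
  let g : LinearMap.BilinForm ℝ (Fin 4 → ℝ) :=
    Matrix.toBilin' !![1, 1, 0, 0; 1, -1, 0, 0; 0, 0, 0, 1; 0, 0, 1, 0]
  have hf : ∀ u v, f u v = u 0 * v 0 - u 0 * v 1 - u 1 * v 0 - u 1 * v 1 + u 2 * v 2 - u 3 * v 3 :=
    fun u v => by simp [f, Matrix.toBilin'_apply, Fin.sum_univ_four]; ring
  have hg : ∀ u v, g u v = u 0 * v 0 + u 0 * v 1 + u 1 * v 0 - u 1 * v 1 + u 2 * v 3 + u 3 * v 2 :=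
    fun u v => by simp [g, Matrix.toBilin'_apply, Fin.sum_univ_four]; ring
  refine ⟨A, B, ⟨acts A B ?_ ⟨![0, 0, 1, 0], ?_, ?_⟩ ⟨![1, 0, 0, 0], ?_, ?_⟩,
    acts B A ?_ ⟨![1, 0, 0, -1], ?_, ?_⟩ ⟨![1, 0, 1, -1], ?_, ?_⟩, ?_⟩, f, g, ?_, ?_,
    ⟨?_, ?_, ?_⟩, ⟨?_, ?_, ?_⟩, ?_⟩
  · intro v; simp [hA]
  · intro h; simpa using congrFun h 2
  · rw [hA]; ext i; fin_cases i <;> simp
  · intro h; simpa using congrFun h 0
  · rw [hA]; ext i; fin_cases i <;> simp
  · intro v; rw [hB, hB]; ext i; fin_cases i <;> simp <;> ring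
  · intro h; simpa using congrFun h 0
  · rw [hB]; ext i; fin_cases i <;> simp
  · intro h; simpa using congrFun h 0
  · rw [hB]; ext i; fin_cases i <;> simp
  · intro W h1 h2
    have m1 : ∀ v ∈ W, A v ∈ W := fun v hv => h1 ⟨v, hv, rfl⟩
    have m2 : ∀ v ∈ W, B v ∈ W := fun v hv => h2 ⟨v, hv, rfl⟩
    have key : ∀ a b : ℝ, ![a, b, 0, 0] ∈ W → ¬ (a = 0 ∧ b = 0) → W = ⊤ := by
      intro a b hab hne
      have hpos : a ^ 2 + b ^ 2 ≠ 0 := by
        intro h; apply hne; constructor <;> nlinarith [sq_nonneg a, sq_nonneg b]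
      have h3 := m1 _ (m2 _ hab)
      have hall : ∀ x y : ℝ, ![x, y, 0, 0] ∈ W := by
        intro x y
        have := W.add_mem (W.smul_mem ((a * x + b * y) / (a ^ 2 + b ^ 2)) hab)
          (W.smul_mem ((a * y - b * x) / (a ^ 2 + b ^ 2)) h3)
        convert this using 1
        rw [hB, hA]
        ext i; fin_cases i <;> simp <;> field_simp <;> ring
      rw [eq_top_iff]
      intro v _
      have := W.add_mem (m2 _ (hall ((v 2 + v 3) / 2) ((v 3 - v 2) / 2)))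
        (hall (v 0 + (v 3 - v 2) / 2) (v 1 - (v 2 + v 3) / 2))
      convert this using 1
      rw [hB]
      ext i; fin_cases i <;> simp <;> ring
    by_cases hW : W = ⊥
    · exact Or.inl hW
    · right
      obtain ⟨v, hv, hv0⟩ := Submodule.exists_mem_ne_zero_of_ne_bot hW
      by_cases h : v 0 = 0 ∧ v 1 = 0
      · have h3 := m1 _ (m2 _ hv)
        rw [hB, hA] at h3
        refine key _ _ h3 ?_
        rintro ⟨h4, h5⟩
        apply hv0
        simp [h.1, h.2] at h4 h5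
        ext i; fin_cases i <;> simp [h.1, h.2, h4, h5]
      · exact key _ _ (hA v ▸ m1 v hv) h
  · intro h
    have := hf ![1, 0, 0, 0] ![1, 0, 0, 0]
    rw [h] at this; simp at this
  · intro h
    have := hg ![1, 0, 0, 0] ![1, 0, 0, 0]
    rw [h] at this; simp at this
  · intro u v; rw [hf, hf]; ring
  · intro u v; rw [hf, hf, hA, hA]; simp
  · intro u v; rw [hf, hf, hB, hB]; simp; ring
  · intro u v; rw [hg, hg]; ring
  · intro u v; rw [hg, hg, hA, hA]; simp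
  · intro u v; rw [hg, hg, hB, hB]; simp; ring
  · intro c h
    have := hg ![0, 0, 1, 0] ![0, 0, 0, 1]
    rw [h, LinearMap.smul_apply, LinearMap.smul_apply, hf] at this
    simp at this

end Pool.Agent.Results.MP_8ac8bf_al.FormNotUnique
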